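import Mathlib

/-! # Partitions, dominance, contiguous partitions -/

set_option autoImplicit false

namespace Pool.Agent.Q122.JT

/-- The sum of the `s` largest parts of a partition. -/
def topSum (P : Multiset ℕ) (s : ℕ) : ℕ := ((P.sort (· ≥ ·)).take s).sum

/-- `P` dominates `Q` in the dominance order. -/
def Dom (P Q : Multiset ℕ) : Prop := ∀ s, topSum Q s ≤ topSum P s

/-- `[a, b]` is a maximal run of consecutive columns in the row `t` of the bar graph of `H`. -/
def IsRun (H : ℕ → ℕ) (t a b : ℕ) : Prop :=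
  a ≤ b ∧ (∀ i, a ≤ i → i ≤ b → t ≤ H i) ∧ (a = 0 ∨ H (a - 1) < t) ∧ H (b + 1) < t

open Classical in
/-- The contiguous partition of a sequence `H` with values at most `N` and `H i = 0` for
`i ≥ N`: its parts are the lengths of the maximal runs of consecutive columns in all rows. -/
noncomputable def Pc (H : ℕ → ℕ) (N : ℕ) : Multiset ℕ :=
  ((Finset.Icc 1 N ×ˢ Finset.range N ×ˢ Finset.range N).filter
    fun x : ℕ × ℕ × ℕ => IsRun H x.1 x.2.1 x.2.2).val.map fun x => x.2.2 - x.2.1 + 1

/-! ### dominance -/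

lemma list_sum_le {L : List ℕ} (hL : L.Pairwise (· ≥ ·)) (s : ℕ) (Q : Multiset ℕ)
    (hQ : Q ≤ (L : Multiset ℕ)) (hs : Q.card ≤ s) : Q.sum ≤ (L.take s).sum := by
  induction L generalizing s Q with
  | nil =>
    have : Q = 0 := by
      rw [Multiset.coe_nil] at hQ
      exact Multiset.le_zero.1 hQ
    simp [this]
  | cons a L ih =>
    rw [List.pairwise_cons] at hL
    rcases Multiset.empty_or_exists_mem Q with h0 | ⟨q, hq⟩
    · simp [h0]
    · obtain ⟨s, rfl⟩ : ∃ s', s = s' + 1 := by
        have := Multiset.card_pos_iff_exists_mem.2 ⟨q, hq⟩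
        exact ⟨s - 1, by omega⟩
      rw [List.take_succ_cons, List.sum_cons]
      by_cases ha : a ∈ Q
      · obtain ⟨Q', rfl⟩ := Multiset.exists_cons_of_mem ha
        rw [← Multiset.cons_coe, Multiset.cons_le_cons_iff] at hQ
        rw [Multiset.card_cons] at hs
        rw [Multiset.sum_cons]
        have := ih hL.2 s Q' hQ (by omega)
        omega
      · obtain ⟨Q', rfl⟩ := Multiset.exists_cons_of_mem hq
        have h1 : q ::ₘ Q' ≤ (L : Multiset ℕ) := by
          rw [← Multiset.cons_coe] at hQ
          exact (Multiset.le_cons_of_notMem ha).1 hQ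
        have h2 : q ∈ L := by
          have := Multiset.mem_of_le h1 (Multiset.mem_cons_self q Q')
          simpa using this
        have h3 : Q' ≤ (L : Multiset ℕ) := (Multiset.le_cons_self Q' q).trans h1
        rw [Multiset.card_cons] at hs
        rw [Multiset.sum_cons]
        have := ih hL.2 s Q' h3 (by omega)
        have := hL.1 q h2
        omega

lemma sum_le_topSum {P Q : Multiset ℕ} (h : Q ≤ P) (s : ℕ) (hs : Q.card ≤ s) :
    Q.sum ≤ topSum P s := by
  refine list_sum_le ?_ s Q ?_ hs
  · exact Multiset.pairwise_sort P (· ≥ ·)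
  · rwa [Multiset.sort_eq]

lemma exists_topSum (P : Multiset ℕ) (s : ℕ) : ∃ Q ≤ P, Q.card ≤ s ∧ Q.sum = topSum P s := by
  refine ⟨((P.sort (· ≥ ·)).take s : List ℕ), ?_, ?_, ?_⟩
  · conv_rhs => rw [← Multiset.sort_eq P (· ≥ ·)]
    exact Multiset.coe_le.2 (List.take_sublist _ _).subperm
  · rw [Multiset.coe_card, List.length_take]
    exact min_le_left _ _
  · rw [Multiset.sum_coe]
    rfl

/-- Dominance is antisymmetric on partitions with positive parts. -/
lemma dom_antisymm {P Q : Multiset ℕ} (hP : ∀ x ∈ P, 0 < x) (hQ : ∀ x ∈ Q, 0 < x)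
    (h1 : Dom P Q) (h2 : Dom Q P) : P = Q := by
  have h : ∀ s, topSum P s = topSum Q s := fun s => le_antisymm (h2 s) (h1 s)
  have key : ∀ (L L' : List ℕ), (∀ x ∈ L, 0 < x) → (∀ x ∈ L', 0 < x) →
      (∀ s, (L.take s).sum = (L'.take s).sum) → L = L' := by
    intro L
    induction L with
    | nil =>
      intro L' _ hL' hs
      cases L' with
      | nil => rfl
      | cons a L' =>
        have h3 := hs 1
        have := hL' a (by simp)
        simp at h3
        omega
    | cons a L ih =>
      intro L' hL hL' hs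
      cases L' with
      | nil =>
        have h3 := hs 1
        have := hL a (by simp)
        simp at h3
        omega
      | cons b L' =>
        have h3 := hs 1
        simp at h3
        subst h3
        rw [ih L' (fun x hx => hL x (by simp [hx])) (fun x hx => hL' x (by simp [hx])) ?_]
        intro s
        have := hs (s + 1)
        simpa using this
  have := key (P.sort (· ≥ ·)) (Q.sort (· ≥ ·)) (fun x hx => hP x (by simpa using hx))
    (fun x hx => hQ x (by simpa using hx)) h
  rw [← Multiset.sort_eq P (· ≥ ·), this, Multiset.sort_eq]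

lemma Pc_pos (H : ℕ → ℕ) (N : ℕ) : ∀ x ∈ Pc H N, 0 < x := by
  intro x hx
  rw [Pc, Multiset.mem_map] at hx
  obtain ⟨y, -, rfl⟩ := hx
  omega

/-! ### the rows -/

/-- The rows of height at most `s` of the bar graph of `H` are contiguous. -/
def Contig (H : ℕ → ℕ) (s : ℕ) : Prop :=
  ∀ t ≤ s, ∀ a b c, a < b → b < c → t ≤ H a → t ≤ H c → t ≤ H b

lemma exists_rows {H : ℕ → ℕ} {N : ℕ} (h0 : ∀ i, N ≤ i → H i = 0) (hN : ∀ i, H i ≤ N) {s : ℕ}
    (hs : Contig H s) : ∃ Q ≤ Pc H N, Q.card ≤ s ∧ Q.sum = ∑ i ∈ Finset.range N, min (H i) s := by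
  classical
  set T := (Finset.Icc 1 s).filter fun t => ∃ i, t ≤ H i with hT
  have hex : ∀ t : T, ∃ a b, IsRun H t a b ∧ a < N ∧ b < N ∧
      b - a + 1 = ((Finset.range N).filter fun i => (t : ℕ) ≤ H i).card := by
    rintro ⟨t, ht⟩
    rw [hT, Finset.mem_filter, Finset.mem_Icc] at ht
    obtain ⟨⟨ht1, hts⟩, i, hi⟩ := ht
    change ∃ a b, IsRun H t a b ∧ a < N ∧ b < N ∧
      b - a + 1 = ((Finset.range N).filter fun i => t ≤ H i).card
    set S := (Finset.range N).filter fun i => t ≤ H i with hS
    have hlt : ∀ j, t ≤ H j → j < N := by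
      intro j hj
      by_contra hcon
      have := h0 j (by omega)
      omega
    have hmem : ∀ j, j ∈ S ↔ t ≤ H j := by
      intro j
      rw [hS, Finset.mem_filter, Finset.mem_range]
      exact ⟨fun h => h.2, fun h => ⟨hlt j h, h⟩⟩
    have hne : S.Nonempty := ⟨i, (hmem i).2 hi⟩
    have ha := (hmem _).1 (S.min'_mem hne)
    have hb := (hmem _).1 (S.max'_mem hne)
    have hab : S.min' hne ≤ S.max' hne := S.min'_le _ (S.max'_mem hne)
    have hall : ∀ j, S.min' hne ≤ j → j ≤ S.max' hne → t ≤ H j := by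
      intro j h1 h2
      rcases h1.eq_or_lt with h1 | h1
      · rw [← h1]; exact ha
      rcases h2.eq_or_lt with h2 | h2
      · rw [h2]; exact hb
      exact hs t hts _ _ _ h1 h2 ha hb
    refine ⟨S.min' hne, S.max' hne, ⟨hab, hall, ?_, ?_⟩, hlt _ ha, hlt _ hb, ?_⟩
    · by_cases h : S.min' hne = 0
      · exact Or.inl h
      · right
        by_contra hcon
        have := S.min'_le _ ((hmem (S.min' hne - 1)).2 (by omega))
        omega
    · by_contra hcon
      have := S.le_max' _ ((hmem (S.max' hne + 1)).2 (by omega))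
      omega
    · have : S = Finset.Icc (S.min' hne) (S.max' hne) := by
        ext j
        rw [hmem, Finset.mem_Icc]
        constructor
        · intro hj
          exact ⟨S.min'_le _ ((hmem j).2 hj), S.le_max' _ ((hmem j).2 hj)⟩
        · rintro ⟨h1, h2⟩
          exact hall j h1 h2
      conv_rhs => rw [this]
      rw [Nat.card_Icc]
      omega
  choose a b hab haN hbN hcard using hex
  refine ⟨(T.attach.image fun t : T => ((t : ℕ), a t, b t)).val.map fun x => x.2.2 - x.2.1 + 1,
    ?_, ?_, ?_⟩
  · refine Multiset.map_le_map (Finset.val_le_iff.2 ?_)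
    intro x hx
    obtain ⟨t, -, rfl⟩ := Finset.mem_image.1 hx
    have ht : ∀ t' ∈ T, (1 ≤ t' ∧ t' ≤ s) ∧ ∃ i, t' ≤ H i := by
      intro t' ht'
      rwa [hT, Finset.mem_filter, Finset.mem_Icc] at ht'
    obtain ⟨⟨ht1, hts⟩, i, hi⟩ := ht t t.2
    have := hN i
    simp only [Finset.mem_filter, Finset.mem_product, Finset.mem_Icc, Finset.mem_range]
    exact ⟨⟨⟨ht1, by omega⟩, haN t, hbN t⟩, hab t⟩
  · rw [Multiset.card_map, Finset.card_val]
    refine Finset.card_image_le.trans ?_
    rw [Finset.card_attach]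
    refine (Finset.card_filter_le _ _).trans ?_
    rw [Nat.card_Icc]
    omega
  · have h1 : ((T.attach.image fun t : T => ((t : ℕ), a t, b t)).val.map
        fun x : ℕ × ℕ × ℕ => x.2.2 - x.2.1 + 1).sum =
        ∑ x ∈ T.attach.image (fun t : T => ((t : ℕ), a t, b t)), (x.2.2 - x.2.1 + 1) := rfl
    rw [h1, Finset.sum_image]
    · have h2 : ∀ t ∈ T.attach, b t - a t + 1 =
          ((Finset.range N).filter fun i => (t : ℕ) ≤ H i).card := fun t _ => hcard t
      rw [Finset.sum_congr rfl h2,
        Finset.sum_attach T (fun t => ((Finset.range N).filter fun i => t ≤ H i).card)]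
      have h3 : ∑ t ∈ T, ((Finset.range N).filter fun i => t ≤ H i).card =
          ∑ t ∈ Finset.Icc 1 s, ((Finset.range N).filter fun i => t ≤ H i).card := by
        refine Finset.sum_subset (Finset.filter_subset _ _) ?_
        intro t ht htn
        rw [Finset.card_eq_zero, Finset.filter_eq_empty_iff]
        intro i _ hi
        exact htn (Finset.mem_filter.2 ⟨ht, i, hi⟩)
      rw [h3]
      simp_rw [Finset.card_filter]
      rw [Finset.sum_comm]
      refine Finset.sum_congr rfl fun i _ => ?_
      rw [← Finset.card_filter]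
      have h4 : (Finset.Icc 1 s).filter (fun t => t ≤ H i) = Finset.Icc 1 (min (H i) s) := by
        ext t
        simp only [Finset.mem_filter, Finset.mem_Icc, le_min_iff]
        tauto
      rw [h4, Nat.card_Icc]
      omega
    · intro t _ t' _ h
      simp only [Prod.mk.injEq] at h
      exact Subtype.ext h.1

end Pool.Agent.Q122.JT
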