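import Mathlib
import Pool.Agent.Q122.JT.Comb

/-! # Jordan types and filtrations -/

set_option autoImplicit false

namespace Pool.Agent.Q122.JT

open Module

/-- `P` is the partition formed by the sizes of the Jordan blocks of the nilpotent map `f`. -/
def IsJordanType {k V : Type*} [Field k] [AddCommGroup V] [Module k V] (f : Module.End k V)
    (P : Multiset ℕ) : Prop :=
  ∃ (ι : Type) (_ : Fintype ι) (p : ι → ℕ) (v : ι → V), (∀ i, 0 < p i) ∧
    (∀ i, (f ^ p i) (v i) = 0) ∧
    LinearIndependent k (fun x : Σ i, Fin (p i) => (f ^ (x.2 : ℕ)) (v x.1)) ∧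
    Submodule.span k (Set.range fun x : Σ i, Fin (p i) => (f ^ (x.2 : ℕ)) (v x.1)) = ⊤ ∧
    P = Finset.univ.val.map p

variable {k V : Type*} [Field k] [AddCommGroup V] [Module k V] [FiniteDimensional k V]

lemma IsJordanType.pos {f : Module.End k V} {P : Multiset ℕ} (h : IsJordanType f P) :
    ∀ x ∈ P, 0 < x := by
  obtain ⟨ι, _, p, v, hp, -, -, -, rfl⟩ := h
  intro x hx
  obtain ⟨i, -, rfl⟩ := Multiset.mem_map.1 hx
  exact hp i

/-- A part of the Jordan type gives a stable subspace. -/
lemma IsJordanType.exists_stable {f : Module.End k V} {P : Multiset ℕ} (h : IsJordanType f P)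
    {Q : Multiset ℕ} (hQ : Q ≤ P) : ∃ W : Submodule k V, W.map f ≤ W ∧ finrank k W = Q.sum ∧
      finrank k W ≤ Q.card + finrank k (W.map f) := by
  classical
  obtain ⟨ι, _, p, v, hp, hv, hli, -, rfl⟩ := h
  obtain ⟨S, hS, rfl⟩ : ∃ S ≤ (Finset.univ : Finset ι).val, S.map p = Q := by
    have : ∀ (s : Multiset ι) (Q : Multiset ℕ), Q ≤ s.map p → ∃ S ≤ s, S.map p = Q := by
      intro s
      induction s using Multiset.induction_on with
      | empty =>
        intro Q hQ
        refine ⟨0, le_rfl, ?_⟩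
        rw [Multiset.map_zero] at hQ ⊢
        exact (Multiset.le_zero.1 hQ).symm
      | cons a s ih =>
        intro Q hQ
        rw [Multiset.map_cons] at hQ
        by_cases ha : p a ∈ Q
        · obtain ⟨Q', rfl⟩ := Multiset.exists_cons_of_mem ha
          rw [Multiset.cons_le_cons_iff] at hQ
          obtain ⟨S, hS, rfl⟩ := ih Q' hQ
          exact ⟨a ::ₘ S, (Multiset.cons_le_cons_iff _).2 hS, Multiset.map_cons _ _ _⟩
        · obtain ⟨S, hS, rfl⟩ := ih Q ((Multiset.le_cons_of_notMem ha).1 hQ)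
          exact ⟨S, hS.trans (Multiset.le_cons_self _ _), rfl⟩
    exact this _ _ hQ
  have hSn : S.Nodup := Multiset.nodup_of_le hS Finset.univ.nodup
  set F : Finset ι := ⟨S, hSn⟩ with hF
  set g : (Σ i : F, Fin (p i)) → V := fun x => (f ^ (x.2 : ℕ)) (v x.1) with hg
  have hgl : LinearIndependent k g := by
    refine hli.comp (fun x : Σ i : F, Fin (p i) => (⟨x.1.1, x.2⟩ : Σ i, Fin (p i))) ?_
    rintro ⟨⟨i, hi⟩, c⟩ ⟨⟨j, hj⟩, d⟩ h
    simp only [Sigma.mk.injEq] at h
    obtain ⟨rfl, h⟩ := h
    rw [heq_eq_eq] at h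
    rw [h]
  refine ⟨Submodule.span k (Set.range g), ?_, ?_, ?_⟩
  · rw [Submodule.map_span_le]
    rintro _ ⟨⟨i, c⟩, rfl⟩
    have h1 : f (g ⟨i, c⟩) = (f ^ ((c : ℕ) + 1)) (v i) := by
      rw [pow_succ']; rfl
    rw [h1]
    by_cases hc : (c : ℕ) + 1 < p i
    · exact Submodule.subset_span ⟨⟨i, ⟨(c : ℕ) + 1, hc⟩⟩, rfl⟩
    · have h2 : (c : ℕ) + 1 = p i := by have := c.2; omega
      rw [h2, hv]
      exact zero_mem _
  · rw [finrank_span_eq_card hgl, Fintype.card_sigma]
    simp only [Fintype.card_fin]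
    rw [Finset.sum_coe_sort F p]
    rfl
  · have h1 : Submodule.span k (Set.range g) ≤
        Submodule.span k (Set.range fun i : F => v i) ⊔ (Submodule.span k (Set.range g)).map f := by
      refine Submodule.span_le.2 ?_
      rintro _ ⟨⟨i, c⟩, rfl⟩
      rcases Nat.eq_zero_or_pos (c : ℕ) with hc | hc
      · refine Submodule.mem_sup_left (Submodule.subset_span ⟨i, ?_⟩)
        rw [hg]
        simp only [hc, pow_zero]
        rfl
      · refine Submodule.mem_sup_right ⟨g ⟨i, ⟨(c : ℕ) - 1, by have := c.2; omega⟩⟩,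
          Submodule.subset_span ⟨_, rfl⟩, ?_⟩
        have h2 : (c : ℕ) = ((c : ℕ) - 1) + 1 := by omega
        change f ((f ^ ((c : ℕ) - 1)) (v i)) = (f ^ (c : ℕ)) (v i)
        conv_rhs => rw [h2, pow_succ']
        rfl
    have h2 := Submodule.finrank_mono h1
    have h3 := Submodule.finrank_add_le_finrank_add_finrank
      (Submodule.span k (Set.range fun i : F => v i)) ((Submodule.span k (Set.range g)).map f)
    have h4 : finrank k (Submodule.span k (Set.range fun i : F => v i)) ≤ Fintype.card F :=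
      finrank_range_le_card (R := k) (fun i : F => v i)
    have h5 : Fintype.card F = (S.map p).card := by
      rw [Fintype.card_coe, Multiset.card_map]
      rfl
    omega

section Filt

variable (f : Module.End k V) (M : ℕ → Submodule k V)

/-- the dimensions of the graded pieces -/
noncomputable def hd (j : ℕ) : ℕ := finrank k (M j) - finrank k (M (j + 1))

variable {f M}

lemma finrank_ker_le {W W' : Submodule k V} (h : W' ≤ W) (s : ℕ)
    (hW : finrank k W ≤ s + finrank k (W.map f)) :
    finrank k W' ≤ s + finrank k (W'.map f) := by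
  have h1 := LinearMap.finrank_range_add_finrank_ker (f.domRestrict W)
  have h2 := LinearMap.finrank_range_add_finrank_ker (f.domRestrict W')
  have e1 : LinearMap.range (f.domRestrict W) = W.map f := by
    rw [LinearMap.range_domRestrict]
  have e2 : LinearMap.range (f.domRestrict W') = W'.map f := by
    rw [LinearMap.range_domRestrict]
  rw [e1] at h1
  rw [e2] at h2
  have h3 : finrank k (LinearMap.ker (f.domRestrict W')) ≤
      finrank k (LinearMap.ker (f.domRestrict W)) := by
    refine LinearMap.finrank_le_finrank_of_injective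
      (f := (Submodule.inclusion h).restrict (p := LinearMap.ker (f.domRestrict W'))
        (q := LinearMap.ker (f.domRestrict W)) ?_) ?_
    · intro x hx
      exact hx
    · intro x y hxy
      have := congrArg (fun z : LinearMap.ker (f.domRestrict W) => ((z : W) : V)) hxy
      exact Subtype.ext (Subtype.ext this)
  omega

/-- the basic estimate -/
lemma step_le (hM : Antitone M) (hf : ∀ j, (M j).map f ≤ M (j + 1)) {W : Submodule k V}
    (hWf : W.map f ≤ W) (s : ℕ) (hW : finrank k W ≤ s + finrank k (W.map f)) (j : ℕ) :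
    finrank k ↥(W ⊓ M j) ≤ finrank k ↥(W ⊓ M (j + 1)) + min (hd M j) s := by
  have h1 : (W ⊓ M j).map f ≤ W ⊓ M (j + 1) := by
    refine le_inf ?_ ?_
    · exact (Submodule.map_mono inf_le_left).trans hWf
    · exact (Submodule.map_mono inf_le_right).trans (hf j)
  have h2 := finrank_ker_le (f := f) (inf_le_left : W ⊓ M j ≤ W) s hW
  have h3 := Submodule.finrank_mono h1
  have h4 : finrank k ↥(W ⊓ M j) ≤ finrank k ↥(W ⊓ M (j + 1)) + hd M j := by
    have h5 := Submodule.finrank_sup_add_finrank_inf_eq (W ⊓ M j) (M (j + 1))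
    have h6 : W ⊓ M j ⊓ M (j + 1) = W ⊓ M (j + 1) := by
      rw [inf_assoc, inf_eq_right.2 (hM (Nat.le_succ j))]
    have h7 : (W ⊓ M j) ⊔ M (j + 1) ≤ M j := sup_le inf_le_right (hM (Nat.le_succ j))
    have h8 := Submodule.finrank_mono h7
    have h9 := Submodule.finrank_mono (hM (Nat.le_succ j))
    rw [h6] at h5
    unfold hd
    simp only [Nat.succ_eq_add_one] at *
    omega
  rcases le_total (hd M j) s with h | h
  · rw [min_eq_left h]; exact h4
  · rw [min_eq_right h]; omega

lemma sum_le (hM : Antitone M) (hf : ∀ j, (M j).map f ≤ M (j + 1)) {W : Submodule k V}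
    (hWf : W.map f ≤ W) (s : ℕ) (hW : finrank k W ≤ s + finrank k (W.map f)) (a b : ℕ) :
    finrank k ↥(W ⊓ M a) ≤ finrank k ↥(W ⊓ M (a + b)) +
      ∑ i ∈ Finset.range b, min (hd M (a + i)) s := by
  induction b with
  | zero => simp
  | succ b ih =>
    have := step_le hM hf hWf s hW (a + b)
    rw [Finset.sum_range_succ]
    have e : a + (b + 1) = a + b + 1 := by ring
    rw [e]
    omega

/-- If the total is as large as possible, every step is an equality. -/
lemma step_eq (hM : Antitone M) (hf : ∀ j, (M j).map f ≤ M (j + 1)) {W : Submodule k V}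
    (hWf : W.map f ≤ W) (s : ℕ) (hW : finrank k W ≤ s + finrank k (W.map f)) (h0 : M 0 = ⊤)
    {N : ℕ} (hN : M N = ⊥) (htot : ∑ i ∈ Finset.range N, min (hd M i) s ≤ finrank k W)
    {j : ℕ} (hj : j < N) :
    finrank k ↥(W ⊓ M j) = finrank k ↥(W ⊓ M (j + 1)) + min (hd M j) s := by
  refine le_antisymm (step_le hM hf hWf s hW j) ?_
  have h1 := sum_le hM hf hWf s hW 0 j
  have h2 := sum_le hM hf hWf s hW (j + 1) (N - (j + 1))
  have e1 : j + 1 + (N - (j + 1)) = N := by omega
  rw [e1, hN, inf_bot_eq, finrank_bot] at h2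
  rw [Nat.zero_add, h0, inf_top_eq] at h1
  simp only [zero_add] at h1 h2
  have h3 : ∑ i ∈ Finset.range N, min (hd M i) s = (∑ i ∈ Finset.range j, min (hd M i) s) +
      min (hd M j) s + ∑ i ∈ Finset.range (N - (j + 1)), min (hd M (j + 1 + i)) s := by
    have e2 : N = (j + 1) + (N - (j + 1)) := by omega
    conv_lhs => rw [e2, Finset.sum_range_add, Finset.sum_range_succ]
  omega

/-- The key step: at a valley of height `s`, the map `f` is onto in the associated graded
module. -/
lemma key (hM : Antitone M) (hf : ∀ j, (M j).map f ≤ M (j + 1)) {W : Submodule k V}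
    (hWf : W.map f ≤ W) (s : ℕ) (hW : finrank k W ≤ s + finrank k (W.map f)) (h0 : M 0 = ⊤)
    {N : ℕ} (hN : M N = ⊥) (htot : ∑ i ∈ Finset.range N, min (hd M i) s ≤ finrank k W)
    {p : ℕ} (hp : p + 1 < N) (hps : s ≤ hd M p) (hps' : hd M (p + 1) ≤ s) :
    M (p + 1) ≤ (M p).map f ⊔ M (p + 2) := by
  have h1 := step_eq hM hf hWf s hW h0 hN htot (j := p) (by omega)
  have h2 := step_eq hM hf hWf s hW h0 hN htot (j := p + 1) (by omega)
  rw [min_eq_right hps] at h1
  rw [min_eq_left hps'] at h2
  -- `f (W ⊓ M p) = W ⊓ M (p + 1)`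
  have h3 : (W ⊓ M p).map f ≤ W ⊓ M (p + 1) := by
    refine le_inf ?_ ?_
    · exact (Submodule.map_mono inf_le_left).trans hWf
    · exact (Submodule.map_mono inf_le_right).trans (hf p)
  have h4 := finrank_ker_le (f := f) (inf_le_left : W ⊓ M p ≤ W) s hW
  have h5 : (W ⊓ M p).map f = W ⊓ M (p + 1) :=
    Submodule.eq_of_le_of_finrank_le h3 (by omega)
  -- `M (p + 1) = (W ⊓ M (p + 1)) ⊔ M (p + 2)`
  have h6 : (W ⊓ M (p + 1)) ⊔ M (p + 2) = M (p + 1) := by
    refine Submodule.eq_of_le_of_finrank_le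
      (sup_le inf_le_right (hM (Nat.le_succ _))) ?_
    have h7 := Submodule.finrank_sup_add_finrank_inf_eq (W ⊓ M (p + 1)) (M (p + 2))
    have h8 : W ⊓ M (p + 1) ⊓ M (p + 2) = W ⊓ M (p + 2) := by
      rw [inf_assoc, inf_eq_right.2 (hM (Nat.le_succ _))]
    rw [h8] at h7
    have h9 := Submodule.finrank_mono (hM (Nat.le_succ (p + 1)))
    unfold hd at h2
    simp only [Nat.succ_eq_add_one] at *
    have e : p + 1 + 1 = p + 2 := rfl
    rw [e] at *
    omega
  rw [← h6, ← h5]
  exact sup_le_sup_right (Submodule.map_mono inf_le_right) _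

end Filt

end Pool.Agent.Q122.JT
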