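import Mathlib
import Pool.Agent.Q122.JT.Comb
import Pool.Agent.Q122.JT.Lin

/-! # The Jordan type of a local Artinian algebra and the contiguous partition -/

set_option autoImplicit false

namespace Pool.Agent.Q122.JT

open Module IsLocalRing

variable (k A : Type*) [Field k] [CommRing A] [IsLocalRing A] [Algebra k A]

/-- the powers of the maximal ideal, as subspaces -/
def Mi (j : ℕ) : Submodule k A := (maximalIdeal A ^ j).restrictScalars k

/-- The Hilbert function `dim_k 𝔪 ^ i / 𝔪 ^ (i + 1)` of a local algebra. -/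
noncomputable def hilb (i : ℕ) : ℕ :=
  finrank k ((Mi k A i).map (Mi k A (i + 1)).mkQ)

/-- Unimodal sequences: first weakly increasing, then weakly decreasing. -/
def Unimodal (H : ℕ → ℕ) : Prop :=
  ∃ c, (∀ i < c, H i ≤ H (i + 1)) ∧ ∀ i, c ≤ i → H (i + 1) ≤ H i

lemma Mi_antitone : Antitone (Mi k A) := fun _ _ h => Ideal.pow_le_pow_right h

variable [FiniteDimensional k A]

lemma hilb_eq (i : ℕ) : hilb k A i = hd (k := k) (V := A) (Mi k A) i := by
  unfold hilb hd
  have h1 := LinearMap.finrank_range_add_finrank_ker ((Mi k A (i + 1)).mkQ.domRestrict (Mi k A i))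
  rw [LinearMap.range_domRestrict] at h1
  have h2 : finrank k (LinearMap.ker ((Mi k A (i + 1)).mkQ.domRestrict (Mi k A i))) =
      finrank k (Mi k A (i + 1)) := by
    rw [LinearMap.ker_domRestrict, Submodule.ker_mkQ]
    exact (Submodule.submoduleOfEquivOfLe (Mi_antitone k A (Nat.le_succ i))).finrank_eq
  omega

lemma exists_Mi_eq_bot : ∃ N, ∀ j, N ≤ j → Mi k A j = ⊥ := by
  have : IsArtinianRing A := IsArtinianRing.of_finite k A
  obtain ⟨N, hN⟩ := IsArtinianRing.isNilpotent_jacobson_bot (R := A)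
  rw [jacobson_eq_maximalIdeal ⊥ bot_ne_top] at hN
  refine ⟨N, fun j hj => ?_⟩
  rw [eq_bot_iff]
  refine (Mi_antitone k A hj).trans ?_
  rw [Mi, hN]
  intro x hx
  exact hx

variable {k A}

/-- multiplication by an element, as an endomorphism of the vector space `A` -/
noncomputable def mulEnd (k : Type*) {A : Type*} [Field k] [CommRing A] [Algebra k A] (l : A) :
    Module.End k A := LinearMap.mulLeft k l

lemma map_Mi_le {l : A} (hl : l ∈ maximalIdeal A) (j : ℕ) :
    (Mi k A j).map (mulEnd k l) ≤ Mi k A (j + 1) := by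
  rintro _ ⟨x, hx, rfl⟩
  change l * x ∈ maximalIdeal A ^ (j + 1)
  rw [pow_succ']
  exact Ideal.mul_mem_mul hl hx

lemma le_of_key {l : A} (hl : l ∈ maximalIdeal A) {p : ℕ}
    (h : Mi k A (p + 1) ≤ (Mi k A p).map (mulEnd k l) ⊔ Mi k A (p + 2)) {j : ℕ} (hj : p ≤ j) :
    Mi k A (j + 1) ≤ (Mi k A j).map (mulEnd k l) := by
  have : IsArtinianRing A := IsArtinianRing.of_finite k A
  have h1 : maximalIdeal A ^ (p + 1) ≤ Ideal.span {l} * maximalIdeal A ^ p := by
    refine Submodule.le_of_le_smul_of_le_jacobson_bot (I := maximalIdeal A)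
      (IsNoetherian.noetherian _) (maximalIdeal_le_jacobson _) ?_
    intro x hx
    obtain ⟨y, hy, z, hz, rfl⟩ := Submodule.mem_sup.1 (h (show x ∈ Mi k A (p + 1) from hx))
    obtain ⟨w, hw, rfl⟩ := hy
    refine Submodule.add_mem_sup ?_ ?_
    · exact Ideal.mul_mem_mul (Ideal.mem_span_singleton_self l) hw
    · have : z ∈ maximalIdeal A ^ (p + 2) := hz
      rwa [show p + 2 = (p + 1) + 1 from rfl, pow_succ'] at this
  have h2 : maximalIdeal A ^ (j + 1) ≤ Ideal.span {l} * maximalIdeal A ^ j := by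
    obtain ⟨r, rfl⟩ := Nat.exists_eq_add_of_le hj
    calc maximalIdeal A ^ (p + r + 1) = maximalIdeal A ^ (p + 1) * maximalIdeal A ^ r := by
          rw [← pow_add]; congr 1; ring
      _ ≤ Ideal.span {l} * maximalIdeal A ^ p * maximalIdeal A ^ r := Ideal.mul_mono_left h1
      _ = Ideal.span {l} * maximalIdeal A ^ (p + r) := by rw [mul_assoc, ← pow_add]
  intro x hx
  obtain ⟨y, hy, rfl⟩ := Ideal.mem_span_singleton_mul.1 (h2 hx)
  exact ⟨y, hy, rfl⟩

lemma hilb_succ_le {l : A} (hl : l ∈ maximalIdeal A) {j : ℕ}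
    (h : Mi k A (j + 1) ≤ (Mi k A j).map (mulEnd k l))
    (h' : Mi k A (j + 2) ≤ (Mi k A (j + 1)).map (mulEnd k l)) :
    hilb k A (j + 1) ≤ hilb k A j := by
  rw [hilb_eq, hilb_eq]
  have e1 : (Mi k A j).map (mulEnd k l) = Mi k A (j + 1) := le_antisymm (map_Mi_le hl j) h
  have e2 : (Mi k A (j + 1)).map (mulEnd k l) = Mi k A (j + 2) :=
    le_antisymm (map_Mi_le hl (j + 1)) h'
  have h1 := finrank_ker_le (f := mulEnd k l) (Mi_antitone k A (Nat.le_succ j))
    (finrank k (Mi k A j) - finrank k (Mi k A (j + 1))) (by rw [e1]; omega)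
  have e3 : (Mi k A j.succ).map (mulEnd k l) = Mi k A (j + 2) := e2
  rw [e3] at h1
  unfold hd
  have e4 : j + 1 + 1 = j + 2 := rfl
  rw [e4]
  simp only [Nat.succ_eq_add_one] at h1
  omega

/-- no `a < b < c` with `H a > H b < H c` -/
def NoValley (H : ℕ → ℕ) : Prop := ∀ a b c, a < b → b < c → H b < H a → H c ≤ H b

lemma sum_range_eq {H : ℕ → ℕ} {N N' : ℕ} (h0 : ∀ i, N ≤ i → H i = 0) (h0' : ∀ i, N' ≤ i → H i = 0)
    (s : ℕ) : ∑ i ∈ Finset.range N, min (H i) s = ∑ i ∈ Finset.range N', min (H i) s := by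
  have key : ∀ {N N' : ℕ}, N ≤ N' → (∀ i, N ≤ i → H i = 0) →
      ∑ i ∈ Finset.range N, min (H i) s = ∑ i ∈ Finset.range N', min (H i) s := by
    intro N N' h h0
    refine Finset.sum_subset (Finset.range_mono h) ?_
    intro i _ hi
    rw [Finset.mem_range, not_lt] at hi
    rw [h0 i hi]
    simp
  rcases le_total N N' with h | h
  · exact key h h0
  · exact (key h h0').symm

/-- If the Jordan type of `l` dominates the contiguous partition, then the Hilbert function has
no valley. -/
theorem noValley {l : A} (hl : l ∈ maximalIdeal A) {P : Multiset ℕ}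
    (hP : IsJordanType (mulEnd k l) P) {N : ℕ} (h0 : ∀ i, N ≤ i → hilb k A i = 0)
    (hN : ∀ i, hilb k A i ≤ N) (hdom : Dom P (Pc (hilb k A) N)) : NoValley (hilb k A) := by
  classical
  by_contra hcon
  unfold NoValley at hcon
  push Not at hcon
  set H := hilb k A with hH
  -- a valley of minimal height
  have hex : ∃ s, ∃ a b c, a < b ∧ b < c ∧ H b < H a ∧ H b < H c ∧ H b = s := by
    obtain ⟨a, b, c, h1, h2, h3, h4⟩ := hcon
    exact ⟨H b, a, b, c, h1, h2, h3, h4, rfl⟩
  obtain ⟨a, b, c, hab, hbc, hba, hbc', hbs⟩ := Nat.find_spec hex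
  set s := Nat.find hex with hs
  have hmin : ∀ a b c, a < b → b < c → H b < H a → H b < H c → s ≤ H b := by
    intro a b c h1 h2 h3 h4
    exact Nat.find_min' hex ⟨a, b, c, h1, h2, h3, h4, rfl⟩
  have hcontig : Contig H s := by
    intro t hts x y z hxy hyz hx hz
    by_contra hy
    have := hmin x y z hxy hyz (by omega) (by omega)
    omega
  obtain ⟨Q, hQ, hQc, hQs⟩ := exists_rows h0 hN hcontig
  have h1 := (sum_le_topSum hQ s hQc).trans (hdom s)
  obtain ⟨Q', hQ', hQ'c, hQ's⟩ := exists_topSum P s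
  obtain ⟨W, hW1, hW2, hW3⟩ := hP.exists_stable hQ'
  obtain ⟨N₀, hN₀⟩ := exists_Mi_eq_bot k A
  have h0' : ∀ i, max N₀ (b + 1) ≤ i → H i = 0 := by
    intro i hi
    rw [hH, hilb_eq]
    unfold hd
    rw [hN₀ i (by omega), hN₀ (i + 1) (by omega), finrank_bot]
  have hM0 : Mi k A 0 = ⊤ := by
    rw [Mi, pow_zero]
    ext x
    simp
  have htot : ∑ i ∈ Finset.range (max N₀ (b + 1)), min (hd (k := k) (V := A) (Mi k A) i) s ≤
      finrank k W := by
    have h2 : ∀ i, hd (k := k) (V := A) (Mi k A) i = H i := fun i => (hilb_eq k A i).symm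
    simp only [h2]
    rw [sum_range_eq h0' h0, ← hQs, hW2, hQ's]
    exact h1
  -- the last index before `b` with a larger value
  have hne : ((Finset.range b).filter fun i => s < H i).Nonempty :=
    ⟨a, Finset.mem_filter.2 ⟨Finset.mem_range.2 hab, by omega⟩⟩
  set p := ((Finset.range b).filter fun i => s < H i).max' hne with hp
  have hpm := Finset.mem_filter.1 (Finset.max'_mem _ hne)
  rw [← hp, Finset.mem_range] at hpm
  have hp1 : H (p + 1) ≤ s := by
    by_contra hlt
    have hpb : p + 1 < b := by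
      rcases Nat.lt_or_ge (p + 1) b with h | h
      · exact h
      · have : p + 1 = b := by omega
        rw [this] at hlt
        omega
    have hmem : p + 1 ∈ (Finset.range b).filter fun i => s < H i :=
      Finset.mem_filter.2 ⟨Finset.mem_range.2 hpb, not_le.1 hlt⟩
    have := Finset.le_max' _ _ hmem
    rw [← hp] at this
    omega
  have hkey := key (f := mulEnd k l) (M := Mi k A) (Mi_antitone k A) (map_Mi_le hl) hW1 s
    (by omega) hM0 (hN₀ _ (le_max_left N₀ (b + 1))) htot (p := p) (by omega)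
    (by rw [← hilb_eq]; exact hpm.2.le) (by rw [← hilb_eq]; exact hp1)
  have hdec : ∀ j, p ≤ j → H (j + 1) ≤ H j := by
    intro j hj
    exact hilb_succ_le hl (le_of_key hl hkey hj) (le_of_key hl hkey (by omega))
  have hfin : ∀ j, p + 1 ≤ j → H j ≤ H (p + 1) := by
    intro j hj
    induction j, hj using Nat.le_induction with
    | base => exact le_rfl
    | succ j hj ih => exact (hdec j (by omega)).trans ih
  have := hfin c (by omega)
  omega

/-- If the Hilbert function has no valley, then the contiguous partition dominates all Jordan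
types. -/
theorem dom_of_noValley {l : A} (hl : l ∈ maximalIdeal A) {P : Multiset ℕ}
    (hP : IsJordanType (mulEnd k l) P) {N : ℕ} (h0 : ∀ i, N ≤ i → hilb k A i = 0)
    (hN : ∀ i, hilb k A i ≤ N) (hv : NoValley (hilb k A)) : Dom (Pc (hilb k A) N) P := by
  intro s
  have hcontig : Contig (hilb k A) s := by
    intro t _ x y z hxy hyz hx hz
    by_contra hy
    have := hv x y z hxy hyz (by omega)
    omega
  obtain ⟨Q, hQ, hQc, hQs⟩ := exists_rows h0 hN hcontig
  obtain ⟨Q', hQ', hQ'c, hQ's⟩ := exists_topSum P s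
  obtain ⟨W, hW1, hW2, hW3⟩ := hP.exists_stable hQ'
  obtain ⟨N₀, hN₀⟩ := exists_Mi_eq_bot k A
  have h0' : ∀ i, N₀ ≤ i → hilb k A i = 0 := by
    intro i hi
    rw [hilb_eq]
    unfold hd
    rw [hN₀ i (by omega), hN₀ (i + 1) (by omega), finrank_bot]
  have hM0 : Mi k A 0 = ⊤ := by
    rw [Mi, pow_zero]
    ext x
    simp
  have h1 := sum_le (f := mulEnd k l) (M := Mi k A) (Mi_antitone k A) (map_Mi_le hl) hW1 s
    (by omega) 0 N₀
  rw [Nat.zero_add, hM0, inf_top_eq, hN₀ N₀ le_rfl, inf_bot_eq, finrank_bot, hW2, hQ's] at h1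
  have h2 : ∀ i, hd (k := k) (V := A) (Mi k A) i = hilb k A i := fun i =>
    (hilb_eq k A i).symm
  simp only [zero_add, h2] at h1
  rw [sum_range_eq h0' h0, ← hQs] at h1
  exact h1.trans (sum_le_topSum hQ s hQc)

lemma unimodal_of_noValley {H : ℕ → ℕ} {N : ℕ} (h0 : ∀ i, N ≤ i → H i = 0) (hv : NoValley H) :
    Unimodal H := by
  obtain ⟨c, -, hc⟩ := Finset.exists_max_image (Finset.range (N + 1)) H ⟨0, by simp⟩
  have hmax : ∀ i, H i ≤ H c := by
    intro i
    rcases Nat.lt_or_ge i (N + 1) with h | h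
    · exact hc i (Finset.mem_range.2 h)
    · rw [h0 i (by omega)]; exact Nat.zero_le _
  refine ⟨c, fun i hi => ?_, fun i hi => ?_⟩
  · by_contra hlt
    rcases Nat.lt_or_ge (i + 1) c with h | h
    · have h1 := hv i (i + 1) c (by omega) h (by omega)
      have h2 := hmax i
      omega
    · have : i + 1 = c := by omega
      have h2 := hmax i
      rw [this] at hlt
      omega
  · by_contra hlt
    rcases hi.eq_or_lt with h | h
    · have h2 := hmax (i + 1)
      rw [h] at h2
      omega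
    · have h1 := hv c i (i + 1) h (by omega) (by have := hmax (i + 1); omega)
      omega

/-- The main theorem. -/
theorem main {l : A} (hl : l ∈ maximalIdeal A) {P : Multiset ℕ}
    (hP : IsJordanType (mulEnd k l) P) {N : ℕ} (h0 : ∀ i, N ≤ i → hilb k A i = 0)
    (hN : ∀ i, hilb k A i ≤ N) (hdom : Dom P (Pc (hilb k A) N)) :
    Unimodal (hilb k A) ∧ P = Pc (hilb k A) N := by
  have hv := noValley hl hP h0 hN hdom
  exact ⟨unimodal_of_noValley h0 hv,
    dom_antisymm hP.pos (Pc_pos _ _) hdom (dom_of_noValley hl hP h0 hN hv)⟩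

end Pool.Agent.Q122.JT
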